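import Mathlib
import Pool.Agent.Q253.Geodesic

set_option autoImplicit false

/-!
# A 3-connected graph in which some geodesic cycle is non-peripheral for every length assignment

The graph is the triakis tetrahedron: `K₄` on `{0,1,2,3}` together with a vertex `4 + i` adjacent
to the three vertices of `{0,1,2,3}` other than `i`.
-/

namespace Pool.Agent.Results.MP_7b7a44_co.TriakisTetrahedron

open SimpleGraph Pool.Agent.Q253.Geodesic

/-- The cycle `C` is peripheral: it has no chord and `G - V(C)` is connected (the empty graph is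
allowed). -/
def IsPeripheral {V : Type*} (G : SimpleGraph V) {u : V} (C : G.Walk u u) : Prop :=
  (∀ x ∈ C.support, ∀ y ∈ C.support, G.Adj x y → s(x, y) ∈ C.edges) ∧
    (G.induce {v | v ∉ C.support}).Preconnected

/-- `3`-connectedness of a finite graph. -/
def ThreeConnected {V : Type*} (G : SimpleGraph V) : Prop :=
  3 < Nat.card V ∧ ∀ S : Finset V, S.card ≤ 2 → (G.induce {v | v ∉ S}).Connected

/-- Adjacency of the triakis tetrahedron. -/
def adjB (x y : Fin 8) : Bool :=
  (decide (x.1 < 4) && decide (y.1 < 4) && decide (x ≠ y)) ||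
  (decide (x.1 < 4) && decide (4 ≤ y.1) && decide (y.1 ≠ x.1 + 4)) ||
  (decide (y.1 < 4) && decide (4 ≤ x.1) && decide (x.1 ≠ y.1 + 4))

/-- The triakis tetrahedron. -/
def T : SimpleGraph (Fin 8) where
  Adj x y := adjB x y = true
  symm := ⟨by decide⟩
  loopless := ⟨by decide⟩

instance : DecidableRel T.Adj := fun x y => inferInstanceAs (Decidable (adjB x y = true))

theorem adj_iff (x y : Fin 8) : T.Adj x y ↔ adjB x y = true := Iff.rfl

theorem threeConnected : ThreeConnected T := by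
  refine ⟨by simp, fun S hS => ?_⟩
  have key : ∀ S : Finset (Fin 8), S.card ≤ 2 → ∃ c, c ∉ S ∧ ∀ v, v ∉ S →
      v = c ∨ adjB v c = true ∨ ∃ m, m ∉ S ∧ adjB v m = true ∧ adjB m c = true := by
    decide +kernel
  obtain ⟨c, hc, h⟩ := key S hS
  have hreach : ∀ v : {v | v ∉ S}, (T.induce {v | v ∉ S}).Reachable v ⟨c, hc⟩ := by
    rintro ⟨v, hv⟩
    rcases h v hv with rfl | h1 | ⟨m, hm, h1, h2⟩
    · exact Reachable.refl _
    · exact Adj.reachable (by simpa [adj_iff] using h1)
    · exact (Adj.reachable (v := ⟨m, hm⟩) (by simpa [adj_iff] using h1)).trans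
        (Adj.reachable (by simpa [adj_iff] using h2))
  have : Nonempty {v | v ∉ S} := ⟨⟨c, hc⟩⟩
  exact ⟨fun a b => (hreach a).trans (hreach b).symm⟩

/-- The two ends and the two apices of the `k`-th edge of `K₄`. -/
def ea : Fin 6 → Fin 8 := ![0, 0, 0, 1, 1, 2]
def eb : Fin 6 → Fin 8 := ![1, 2, 3, 2, 3, 3]
def ap : Fin 6 → Fin 8 := ![6, 5, 5, 4, 4, 4]
def aq : Fin 6 → Fin 8 := ![7, 7, 6, 7, 6, 5]

/-- The third vertex of the `i`-th face; the first two are `ea (i / 2)`, `eb (i / 2)`. -/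
def fk (i : Fin 12) : Fin 6 := ⟨i.1 / 2, by omega⟩
def fz (i : Fin 12) : Fin 8 := if i.1 % 2 = 0 then ap (fk i) else aq (fk i)

/-- the vertex set of a face -/
def fset (i : Fin 12) : Finset (Fin 8) := {ea (fk i), eb (fk i), fz i}

/-- The sum of `g` over the edges of a face. -/
def fsum {M : Type*} [AddCommMonoid M] (g : Sym2 (Fin 8) → M) (i : Fin 12) : M :=
  g s(ea (fk i), eb (fk i)) + g s(ea (fk i), fz i) + g s(eb (fk i), fz i)

/-- Classification of induced nonseparating 2-regular vertex sets. -/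
theorem classify : ∀ S : Finset (Fin 8), S.Nonempty →
    (∀ v ∈ S, (S.filter (fun u => adjB v u = true)).card = 2) →
    (∀ v, v ∉ S → (∃ u, u ∉ S ∧ u ≠ v) → ∃ u, u ∉ S ∧ adjB v u = true) →
    ∃ i, S = fset i := by
  decide +kernel

/-- Dual paths from face `0` to face `i`. -/
def dl : Fin 12 → List (Sym2 (Fin 8)) :=
  ![[], [s(0, 1)], [s(0, 2), s(0, 7), s(0, 1)], [s(0, 7), s(0, 1)], [s(0, 3), s(0, 6)], [s(0, 6)], [s(1, 2), s(1, 7), s(0, 1)], [s(1, 7), s(0, 1)], [s(1, 3), s(1, 6)], [s(1, 6)], [s(3, 4), s(1, 3), s(1, 6)], [s(3, 5), s(0, 3), s(0, 6)]]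

def dp (i : Fin 12) (e : Sym2 (Fin 8)) : ZMod 2 := if e ∈ dl i then 1 else 0

/-- parity function separating the faces `i` and `j` -/
def sep (i j : Fin 12) (e : Sym2 (Fin 8)) : ZMod 2 := dp i e + dp j e

/-- indicator of an edge -/
def ind (e₀ e : Sym2 (Fin 8)) : ZMod 2 := if e = e₀ then 1 else 0

theorem fsum_sep : ∀ i j k : Fin 12,
    fsum (sep i j) k = (if k = i then 1 else 0) + (if k = j then 1 else 0) := by
  decide +kernel

/-- the two faces at the `k`-th edge of `K₄` -/
def f1 (k : Fin 6) : Fin 12 := ⟨2 * k.1, by omega⟩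
def f2 (k : Fin 6) : Fin 12 := ⟨2 * k.1 + 1, by omega⟩

theorem fsum_ind : ∀ (k : Fin 6) (i : Fin 12),
    fsum (ind s(ea k, eb k)) i = (if i = f1 k then 1 else 0) + (if i = f2 k then 1 else 0) := by
  decide +kernel

theorem fsum_add {M : Type*} [AddCommMonoid M] (g h : Sym2 (Fin 8) → M) (i : Fin 12) :
    fsum (fun e => g e + h e) i = fsum g i + fsum h i := by
  simp only [fsum]
  abel

/-- A peripheral cycle of the graph is one of the twelve faces. -/
theorem peripheral_face {u : Fin 8} (C : T.Walk u u) (hC : C.IsCycle) (hp : IsPeripheral T C) :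
    ∃ i : Fin 12, C.edges.toFinset =
      {s(ea (fk i), eb (fk i)), s(ea (fk i), fz i), s(eb (fk i), fz i)} := by
  classical
  have hnb : ∀ v ∈ C.support.toFinset,
      (C.support.toFinset.filter (fun u => adjB v u = true)).card = 2 := by
    intro v hv
    rw [List.mem_toFinset] at hv
    have h2 := hC.ncard_neighborSet_toSubgraph_eq_two hv
    rw [← h2, ← Set.ncard_coe_finset]
    congr 1
    ext x
    simp only [Finset.coe_filter, List.mem_toFinset, Set.mem_ofPred_eq,
      SimpleGraph.Subgraph.mem_neighborSet]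
    constructor
    · rintro ⟨hx, hadj⟩
      have := hp.1 v hv x hx hadj
      rwa [← Walk.mem_edges_toSubgraph, Subgraph.mem_edgeSet] at this
    · intro h
      refine ⟨?_, h.adj_sub⟩
      have := h.snd_mem
      rwa [Walk.mem_verts_toSubgraph] at this
  have hcomp : ∀ v, v ∉ C.support.toFinset → (∃ x, x ∉ C.support.toFinset ∧ x ≠ v) →
      ∃ x, x ∉ C.support.toFinset ∧ adjB v x = true := by
    intro v hv ⟨x, hx, hxv⟩
    rw [List.mem_toFinset] at hv hx
    obtain ⟨w⟩ := hp.2 ⟨v, hv⟩ ⟨x, hx⟩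
    cases w with
    | nil => exact absurd rfl hxv
    | @cons _ y _ h _ =>
      exact ⟨y.1, by rw [List.mem_toFinset]; exact y.2, h⟩
  obtain ⟨i, hi⟩ := classify C.support.toFinset
    ⟨u, by rw [List.mem_toFinset]; exact C.start_mem_support⟩ hnb hcomp
  refine ⟨i, ?_⟩
  have hmem : ∀ x, x ∈ C.support ↔ x ∈ fset i := by
    intro x
    rw [← hi, List.mem_toFinset]
  have hface : ∀ i : Fin 12, adjB (ea (fk i)) (eb (fk i)) = true ∧
      adjB (ea (fk i)) (fz i) = true ∧ adjB (eb (fk i)) (fz i) = true := by decide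
  obtain ⟨a1, a2, a3⟩ := hface i
  have m1 : ea (fk i) ∈ C.support := (hmem _).2 (by simp [fset])
  have m2 : eb (fk i) ∈ C.support := (hmem _).2 (by simp [fset])
  have m3 : fz i ∈ C.support := (hmem _).2 (by simp [fset])
  ext e
  rw [List.mem_toFinset]
  simp only [Finset.mem_insert, Finset.mem_singleton]
  constructor
  · intro he
    induction e with
    | _ x y =>
      have hx := (hmem x).1 (C.fst_mem_support_of_mem_edges he)
      have hy := (hmem y).1 (C.snd_mem_support_of_mem_edges he)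
      have hxy : x ≠ y := (C.adj_of_mem_edges he).ne
      simp only [fset, Finset.mem_insert, Finset.mem_singleton] at hx hy
      rcases hx with rfl | rfl | rfl <;> rcases hy with hy | hy | hy
      · exact absurd hy.symm hxy
      · exact Or.inl (by rw [hy])
      · exact Or.inr (Or.inl (by rw [hy]))
      · exact Or.inl (by rw [hy, Sym2.eq_swap])
      · exact absurd hy.symm hxy
      · exact Or.inr (Or.inr (by rw [hy]))
      · exact Or.inr (Or.inl (by rw [hy, Sym2.eq_swap]))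
      · exact Or.inr (Or.inr (by rw [hy, Sym2.eq_swap]))
      · exact absurd hy.symm hxy
  · rintro (rfl | rfl | rfl)
    · exact hp.1 _ m1 _ m2 a1
    · exact hp.1 _ m1 _ m3 a2
    · exact hp.1 _ m2 _ m3 a3

theorem face_ne : ∀ i : Fin 12, s(ea (fk i), eb (fk i)) ≠ s(ea (fk i), fz i) ∧
    s(ea (fk i), eb (fk i)) ≠ s(eb (fk i), fz i) ∧ s(ea (fk i), fz i) ≠ s(eb (fk i), fz i) := by
  decide

/-- The sum over a peripheral cycle is the sum over a face, simultaneously for all functions. -/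
theorem peripheral_sum {u : Fin 8} (C : T.Walk u u) (hC : C.IsCycle) (hp : IsPeripheral T C) :
    ∃ i : Fin 12, ∀ (M : Type) [AddCommMonoid M] (g : Sym2 (Fin 8) → M),
      wsum g C = fsum g i := by
  classical
  obtain ⟨i, hi⟩ := peripheral_face C hC hp
  refine ⟨i, fun M _ g => ?_⟩
  have h1 : wsum g C = ∑ e ∈ C.edges.toFinset, g e :=
    (List.sum_toFinset g hC.isTrail.edges_nodup).symm
  obtain ⟨n1, n2, n3⟩ := face_ne i
  rw [h1, hi, Finset.sum_insert (by simp [n1, n2]), Finset.sum_insert (by simp [n3]),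
    Finset.sum_singleton, fsum, add_assoc]

theorem f1_data : ∀ k : Fin 6, fk (f1 k) = k ∧ fz (f1 k) = ap k := by decide
theorem f2_data : ∀ k : Fin 6, fk (f2 k) = k ∧ fz (f2 k) = aq k := by decide
theorem f12_ne : ∀ k : Fin 6, f1 k ≠ f2 k := by decide
theorem adj_data : ∀ k : Fin 6, adjB (ea k) (eb k) = true ∧ adjB (ea k) (ap k) = true ∧
    adjB (ap k) (eb k) = true ∧ adjB (eb k) (aq k) = true ∧ adjB (aq k) (ea k) = true := by decide

section main

variable (ℓ : Sym2 (Fin 8) → ℝ) (hℓ : ∀ e ∈ T.edgeSet, 0 < ℓ e)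
  (hper : ∀ (u : Fin 8) (C : T.Walk u u), IsGeodesicCycle ℓ C → IsPeripheral T C)

include hℓ hper

theorem key (i j : Fin 12) (g : Sym2 (Fin 8) → ZMod 2)
    (hg : ∀ k, fsum g k = (if k = i then 1 else 0) + (if k = j then 1 else 0))
    (hij : fsum ℓ i ≤ fsum ℓ j) {u : Fin 8} (w : T.Walk u u) (hw : wsum g w = 1) :
    fsum ℓ i ≤ wsum ℓ w := by
  obtain ⟨v, C, hC1, hC2⟩ := exists_min ℓ hℓ g w hw
  have hgeo := min_geodesic ℓ hℓ g C hC1 hC2
  obtain ⟨k, hk⟩ := peripheral_sum C hgeo.1 (hper v C hgeo)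
  have h1 := hk (ZMod 2) g
  have h2 := hk ℝ ℓ
  rw [hC1, hg k] at h1
  have h3 := hC2 u w hw
  rw [h2] at h3
  by_cases hki : k = i
  · rw [hki] at h3
    exact h3
  · by_cases hkj : k = j
    · rw [hkj] at h3
      exact hij.trans h3
    · rw [if_neg hki, if_neg hkj] at h1
      exact absurd h1 (by decide)

theorem edge_geo (F : Fin 12) (hF : ∀ i, fsum ℓ i ≤ fsum ℓ F) (k : Fin 6) (h1 : f1 k ≠ F)
    (h2 : f2 k ≠ F) (P : T.Walk (ea k) (eb k)) : ℓ s(ea k, eb k) ≤ wsum ℓ P := by
  obtain ⟨b1, b2, b3, b4, b5⟩ := adj_data k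
  have c1 : T.Adj (ea k) (eb k) := b1
  have c2 : T.Adj (ea k) (ap k) := b2
  have c3 : T.Adj (ap k) (eb k) := b3
  have c4 : T.Adj (eb k) (aq k) := b4
  have c5 : T.Adj (aq k) (ea k) := b5
  -- the two separating functions
  let g1 : Sym2 (Fin 8) → ZMod 2 := sep (f1 k) F
  let g2 : Sym2 (Fin 8) → ZMod 2 := fun e => sep (f1 k) F e + ind s(ea k, eb k) e
  have hg1 : ∀ i, fsum g1 i = (if i = f1 k then 1 else 0) + (if i = F then 1 else 0) :=
    fun i => fsum_sep _ _ _
  have hg2 : ∀ i, fsum g2 i = (if i = f2 k then 1 else 0) + (if i = F then 1 else 0) := by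
    intro i
    rw [fsum_add, fsum_sep, fsum_ind]
    have : (if i = f1 k then (1 : ZMod 2) else 0) + (if i = f1 k then 1 else 0) = 0 :=
      CharTwo.add_self_eq_zero _
    linear_combination this
  have F1 : ∀ {M : Type} [AddCommMonoid M] (g : Sym2 (Fin 8) → M),
      fsum g (f1 k) = g s(ea k, eb k) + g s(ea k, ap k) + g s(eb k, ap k) := by
    intro M _ g
    obtain ⟨e1, e2⟩ := f1_data k
    rw [fsum, e1, e2]
  have F2 : ∀ {M : Type} [AddCommMonoid M] (g : Sym2 (Fin 8) → M),
      fsum g (f2 k) = g s(ea k, eb k) + g s(ea k, aq k) + g s(eb k, aq k) := by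
    intro M _ g
    obtain ⟨e1, e2⟩ := f2_data k
    rw [fsum, e1, e2]
  -- the four-cycle around the edge
  let Q : T.Walk (ea k) (ea k) := Walk.cons c2 (Walk.cons c3 (Walk.cons c4 (Walk.cons c5 Walk.nil)))
  have hQ : ∀ {M : Type} [AddCommMonoid M] (g : Sym2 (Fin 8) → M),
      wsum g Q = g s(ea k, ap k) + (g s(eb k, ap k) + (g s(eb k, aq k) + g s(ea k, aq k))) := by
    intro M _ g
    simp only [Q, wsum_cons, wsum_nil, add_zero]
    rw [Sym2.eq_swap (a := ap k), Sym2.eq_swap (a := aq k)]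
  have hpar : ∀ g : Sym2 (Fin 8) → ZMod 2, wsum g Q = fsum g (f1 k) + fsum g (f2 k) := by
    intro g
    rw [hQ, F1, F2]
    have : g s(ea k, eb k) + g s(ea k, eb k) = 0 := CharTwo.add_self_eq_zero _
    linear_combination -this
  have hne := f12_ne k
  have k1 : fsum ℓ (f1 k) ≤ wsum ℓ Q := by
    refine key ℓ hℓ hper (f1 k) F g1 hg1 (hF _) Q ?_
    rw [hpar, hg1, hg1, if_pos rfl, if_neg h1, if_neg hne.symm, if_neg h2]
    decide
  have k2 : fsum ℓ (f2 k) ≤ wsum ℓ Q := by
    refine key ℓ hℓ hper (f2 k) F g2 hg2 (hF _) Q ?_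
    rw [hpar, hg2, hg2, if_pos rfl, if_neg h1, if_neg hne, if_neg h2]
    decide
  rw [hQ] at k1 k2
  -- both faces have length at least twice the edge
  have l1 : 2 * ℓ s(ea k, eb k) ≤ fsum ℓ (f1 k) := by
    rw [F2] at k2
    rw [F1]
    linarith
  have l2 : 2 * ℓ s(ea k, eb k) ≤ fsum ℓ (f2 k) := by
    rw [F1] at k1
    rw [F2]
    linarith
  by_cases he : s(ea k, eb k) ∈ P.edges
  · exact le_wsum_of_mem ℓ hℓ P _ he
  · let R : T.Walk (eb k) (eb k) := Walk.cons c1.symm P
    have hR : ∀ {M : Type} [AddCommMonoid M] (g : Sym2 (Fin 8) → M),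
        wsum g R = g s(ea k, eb k) + wsum g P := by
      intro M _ g
      simp only [R, wsum_cons]
      rw [Sym2.eq_swap]
    have hind : wsum (ind s(ea k, eb k)) P = 0 := by
      unfold wsum
      apply List.sum_eq_zero
      intro x hx
      rw [List.mem_map] at hx
      obtain ⟨e, he', rfl⟩ := hx
      have : e ≠ s(ea k, eb k) := fun h => he (h ▸ he')
      simp [ind, this]
    have hdiff : wsum g2 R = wsum g1 R + 1 := by
      rw [hR, hR]
      have e1 : wsum g2 P = wsum g1 P + wsum (ind s(ea k, eb k)) P := by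
        unfold wsum
        rw [← List.sum_map_add]
      rw [e1, hind]
      have e2 : g2 s(ea k, eb k) = g1 s(ea k, eb k) + 1 := by
        simp [g2, g1, ind]
      rw [e2]
      ring
    have hRl := hR ℓ
    rcases zmod2_cases (wsum g1 R) with h0 | h1'
    · have : wsum g2 R = 1 := by rw [hdiff, h0, zero_add]
      have := key ℓ hℓ hper (f2 k) F g2 hg2 (hF _) R this
      linarith
    · have := key ℓ hℓ hper (f1 k) F g1 hg1 (hF _) R h1'
      linarith

end main

theorem wsum_of_length_one {V M : Type*} [AddCommMonoid M] {G : SimpleGraph V}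
    (g : Sym2 V → M) {a b : V} (p : G.Walk a b) (hp : p.length = 1) : wsum g p = g s(a, b) := by
  cases p with
  | nil => simp at hp
  | cons h q =>
    cases q with
    | nil => simp
    | cons h' q' => simp at hp

/-- A triangle all of whose edges are shortest paths is a geodesic cycle; if it separates a
vertex from another one it is not peripheral. -/
theorem triangle (ℓ : Sym2 (Fin 8) → ℝ) (hℓ : ∀ e ∈ T.edgeSet, 0 < ℓ e)
    (x y z p o : Fin 8) (hxy : adjB x y = true) (hyz : adjB y z = true) (hzx : adjB z x = true)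
    (hp : p ∉ ({x, y, z} : Finset (Fin 8))) (ho : o ∉ ({x, y, z} : Finset (Fin 8))) (hpo : o ≠ p)
    (hiso : ∀ v, adjB p v = true → v ∈ ({x, y, z} : Finset (Fin 8)))
    (hP : ∀ a ∈ ({x, y, z} : Finset (Fin 8)), ∀ b ∈ ({x, y, z} : Finset (Fin 8)), a ≠ b →
      ∀ P : T.Walk a b, ℓ s(a, b) ≤ wsum ℓ P) :
    ∃ (u : Fin 8) (C : T.Walk u u), IsGeodesicCycle ℓ C ∧ ¬ IsPeripheral T C := by
  have c1 : T.Adj x y := hxy
  have c2 : T.Adj y z := hyz
  have c3 : T.Adj z x := hzx
  let C : T.Walk x x := Walk.cons c1 (Walk.cons c2 (Walk.cons c3 Walk.nil))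
  have hsup : ∀ v, v ∈ C.support ↔ v ∈ ({x, y, z} : Finset (Fin 8)) := by
    intro v
    simp only [C, Walk.support_cons, Walk.support_nil, List.mem_cons, List.not_mem_nil, or_false,
      Finset.mem_insert, Finset.mem_singleton]
    tauto
  have hcyc : C.IsCycle := by
    rw [Walk.cons_isCycle_iff]
    refine ⟨?_, ?_⟩
    · rw [Walk.cons_isPath_iff, Walk.cons_isPath_iff]
      refine ⟨⟨Walk.IsPath.nil, ?_⟩, ?_⟩
      · simp [c3.ne]
      · simp [c2.ne, c1.ne.symm]
    · simp only [Walk.edges_cons, Walk.edges_nil, List.mem_cons, List.not_mem_nil, or_false,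
        Sym2.eq_iff, not_or, not_and]
      refine ⟨⟨fun h => absurd h c1.ne, fun h => absurd h c3.ne.symm⟩,
        ⟨fun h => absurd h c3.ne.symm, fun _ h => c2.ne h⟩⟩
  refine ⟨x, C, ⟨hcyc, ?_⟩, ?_⟩
  · intro a b ha hb P _ hlt
    have hspec : ((C.rotate a ha).takeUntil b hb).append ((C.rotate a ha).dropUntil b hb)
        = C.rotate a ha := Walk.take_spec _ hb
    have hlen : ((C.rotate a ha).takeUntil b hb).length
        + ((C.rotate a ha).dropUntil b hb).length = 3 := by
      rw [← Walk.length_append, hspec, ← Walk.length_edges, (C.rotate_edges a ha).perm.length_eq]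
      simp [C]
    have hb' : b ∈ C.support := (C.mem_support_rotate_iff a ha).1 hb
    by_cases hab : a = b
    · subst hab
      have h0 : wsum ℓ ((C.rotate a ha).takeUntil a hb) = 0 := by
        rw [Walk.takeUntil_first]
        simp
      have := wsum_nonneg ℓ hℓ P
      linarith [hlt.1]
    · have hle := hP a ((hsup a).1 ha) b ((hsup b).1 hb') hab P
      have l1 : ((C.rotate a ha).takeUntil b hb).length ≠ 0 := fun h =>
        hab (Walk.eq_of_length_eq_zero h)
      have l2 : ((C.rotate a ha).dropUntil b hb).length ≠ 0 := fun h =>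
        hab (Walk.eq_of_length_eq_zero h).symm
      have : ((C.rotate a ha).takeUntil b hb).length = 1 ∨
          ((C.rotate a ha).dropUntil b hb).length = 1 := by omega
      rcases this with h | h
      · have := wsum_of_length_one ℓ _ h
        linarith [hlt.1]
      · have := wsum_of_length_one ℓ _ h
        rw [Sym2.eq_swap] at this
        linarith [hlt.2]
  · rintro ⟨_, hpre⟩
    have hp' : p ∉ C.support := fun h => hp ((hsup p).1 h)
    have ho' : o ∉ C.support := fun h => ho ((hsup o).1 h)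
    obtain ⟨w⟩ := hpre ⟨p, hp'⟩ ⟨o, ho'⟩
    cases w with
    | nil => exact hpo rfl
    | @cons _ v _ h _ =>
      exact v.2 ((hsup v.1).2 (hiso v.1 h))

/-- The triangle of `K₄` used when the longest face is the `F`-th one. -/
def tx (F : Fin 12) : Fin 8 := if ea (fk F) = 0 then 1 else 0
def ty (F : Fin 12) : Fin 8 := if ea (fk F) = 2 then 1 else 2
def ti (F : Fin 12) : Fin 8 := if ea (fk F) = 0 then 4 else if ea (fk F) = 1 then 5 else 6

theorem tri_data : ∀ F : Fin 12,
    (adjB (tx F) (ty F) = true ∧ adjB (ty F) 3 = true ∧ adjB 3 (tx F) = true) ∧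
    (ti F ∉ ({tx F, ty F, 3} : Finset (Fin 8)) ∧ ea (fk F) ∉ ({tx F, ty F, 3} : Finset (Fin 8)) ∧
      ea (fk F) ≠ ti F) ∧
    ∀ v, adjB (ti F) v = true → v ∈ ({tx F, ty F, 3} : Finset (Fin 8)) := by
  decide +kernel

theorem pair_data : ∀ F : Fin 12, ∀ a ∈ ({tx F, ty F, 3} : Finset (Fin 8)),
    ∀ b ∈ ({tx F, ty F, 3} : Finset (Fin 8)), a ≠ b →
    ∃ k : Fin 6, f1 k ≠ F ∧ f2 k ≠ F ∧ ((a = ea k ∧ b = eb k) ∨ (a = eb k ∧ b = ea k)) := by
  decide +kernel

theorem main (ℓ : Sym2 (Fin 8) → ℝ) (hℓ : ∀ e ∈ T.edgeSet, 0 < ℓ e) :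
    ∃ (u : Fin 8) (C : T.Walk u u), IsGeodesicCycle ℓ C ∧ ¬ IsPeripheral T C := by
  by_contra hcon
  have hper : ∀ (u : Fin 8) (C : T.Walk u u), IsGeodesicCycle ℓ C → IsPeripheral T C := by
    intro u C hC
    by_contra h
    exact hcon ⟨u, C, hC, h⟩
  obtain ⟨F, _, hF⟩ := Finset.exists_max_image (Finset.univ : Finset (Fin 12)) (fsum ℓ)
    ⟨0, Finset.mem_univ _⟩
  have hF' : ∀ i, fsum ℓ i ≤ fsum ℓ F := fun i => hF i (Finset.mem_univ i)
  obtain ⟨⟨a1, a2, a3⟩, ⟨a4, a5, a6⟩, a7⟩ := tri_data F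
  refine hcon (triangle ℓ hℓ (tx F) (ty F) 3 (ti F) (ea (fk F)) a1 a2 a3 a4 a5 a6 a7 ?_)
  intro a ha b hb hab P
  obtain ⟨k, h1, h2, ⟨rfl, rfl⟩ | ⟨rfl, rfl⟩⟩ := pair_data F a ha b hb hab
  · exact edge_geo ℓ hℓ hper F hF' k h1 h2 P
  · have := edge_geo ℓ hℓ hper F hF' k h1 h2 P.reverse
    rw [wsum_reverse] at this
    rwa [Sym2.eq_swap]

/-- **Q1 has a negative answer**: there is a `3`-connected graph (on eight vertices) such that
for every length assignment some geodesic cycle is not peripheral. -/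
theorem result : ∃ G : SimpleGraph (Fin 8), ThreeConnected G ∧
    ∀ ℓ : Sym2 (Fin 8) → ℝ, (∀ e ∈ G.edgeSet, 0 < ℓ e) →
      ∃ (u : Fin 8) (C : G.Walk u u), IsGeodesicCycle ℓ C ∧ ¬ IsPeripheral G C :=
  ⟨T, threeConnected, main⟩

end Pool.Agent.Results.MP_7b7a44_co.TriakisTetrahedron
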